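import Pool.Agent.W_MP_5f563a_co.Main2

set_option autoImplicit false

namespace Pool.Agent.Results.MP_5f563a_co.GaleFalse

/-- There is a compact convex body `K` in Euclidean three-space, of diameter exactly `1`, such that
in every splitting of `K` into four subsets some piece has diameter at least `0.889`, which is
larger than the value `√((3 + √3) / 6)` of the ball of diameter `1`. -/
theorem result :
    Real.sqrt ((3 + Real.sqrt 3) / 6) < 0.889 ∧
    ∃ K : Set (EuclideanSpace ℝ (Fin 3)),
      Convex ℝ K ∧ IsCompact K ∧ (interior K).Nonempty ∧ Metric.diam K = 1 ∧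
      ∀ A : Fin 4 → Set (EuclideanSpace ℝ (Fin 3)), (⋃ i, A i) = K →
        ∃ i, (0.889 : ℝ) ≤ Metric.diam (A i) := by
  refine ⟨?_, Pool.Agent.Gale2.K, Pool.Agent.Gale2.K_convex, Pool.Agent.Gale2.K_compact,
    Pool.Agent.Gale2.K_interior, Pool.Agent.Gale2.K_diam, Pool.Agent.Gale2.main⟩
  rw [Real.sqrt_lt' (by norm_num)]
  have h : Real.sqrt 3 < 1734 / 1000 := by
    rw [Real.sqrt_lt' (by norm_num)]
    norm_num
  norm_num
  linarith

end Pool.Agent.Results.MP_5f563a_co.GaleFalse
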